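import Pool.Agent.Helper74.NW.Model

/-!
# Other names for the cells
-/

namespace Pool.Agent.Helper73.CL

open Pool.Agent.Helper19.NF Pool.Agent.Helper74.NW

variable {C C' W Z Q Γ : Type} {S : ℕ}

/-- The program with other names for the cells. -/
def relN (e : C → C') (P : NProg C W Z S) : NProg C' W Z S where
  start := P.start
  act s := (P.act s).elim (fun t => Sum.inl (e t.1, t.2)) (fun z => Sum.inr z)

theorem relN_inl {e : C → C'} {P : NProg C W Z S} {s : Fin S} {c : C} {next : W → Set (Fin S)}
    (h : P.act s = Sum.inl (c, next)) : (relN e P).act s = Sum.inl (e c, next) := by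
  simp only [relN, h, Sum.elim_inl]

theorem relN_inr {e : C → C'} {P : NProg C W Z S} {s : Fin S} {z : Z}
    (h : P.act s = Sum.inr z) : (relN e P).act s = Sum.inr z := by
  simp only [relN, h, Sum.elim_inr]

theorem relN_inr' {e : C → C'} {P : NProg C W Z S} {s : Fin S} {z : Z}
    (h : (relN e P).act s = Sum.inr z) : P.act s = Sum.inr z := by
  rcases hs : P.act s with ⟨c, next⟩ | z'
  · rw [relN_inl hs] at h
    exact absurd h (by simp)
  · rw [relN_inr hs] at h
    rw [Sum.inr.inj h]

theorem relN_inl' {e : C → C'} {P : NProg C W Z S} {s : Fin S} {c' : C'} {next : W → Set (Fin S)}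
    (h : (relN e P).act s = Sum.inl (c', next)) : ∃ c, e c = c' ∧ P.act s = Sum.inl (c, next) := by
  rcases hs : P.act s with ⟨c, next'⟩ | z'
  · rw [relN_inl hs] at h
    simp only [Sum.inl.injEq, Prod.mk.injEq] at h
    exact ⟨c, h.1, by rw [h.2]⟩
  · rw [relN_inr hs] at h
    exact absurd h (by simp)

theorem run_relN {e : C → C'} {P : NProg C W Z S} {I' : C' → W} {s t : Fin S} {l : List C}
    (h : P.Run (fun c => I' (e c)) s l t) : (relN e P).Run I' s (l.map e) t := by
  induction h with
  | nil s => exact NProg.Run.nil s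
  | cons s s' t c next l h1 h2 _ ih =>
    exact NProg.Run.cons s s' t (e c) next (l.map e) (relN_inl h1) h2 ih

theorem run_relN' {e : C → C'} {P : NProg C W Z S} {I' : C' → W} {s t : Fin S} {l' : List C'}
    (h : (relN e P).Run I' s l' t) : ∃ l, l.map e = l' ∧ P.Run (fun c => I' (e c)) s l t := by
  induction h with
  | nil s => exact ⟨[], rfl, NProg.Run.nil s⟩
  | cons s s' t c' next l' h1 h2 _ ih =>
    obtain ⟨l, rfl, h3⟩ := ih
    obtain ⟨c, rfl, h4⟩ := relN_inl' h1
    exact ⟨c :: l, rfl, NProg.Run.cons s s' t c next l h4 h2 h3⟩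

theorem ends_relN {e : C → C'} {P : NProg C W Z S} {I' : C' → W} {l : List C} {z : Z}
    (h : P.Ends (fun c => I' (e c)) l z) : (relN e P).Ends I' (l.map e) z := by
  obtain ⟨t, h1, h2⟩ := h
  exact ⟨t, run_relN h1, relN_inr h2⟩

theorem ends_relN' {e : C → C'} {P : NProg C W Z S} {I' : C' → W} {l' : List C'} {z : Z}
    (h : (relN e P).Ends I' l' z) : ∃ l, l.map e = l' ∧ P.Ends (fun c => I' (e c)) l z := by
  obtain ⟨t, h1, h2⟩ := h
  obtain ⟨l, h3, h4⟩ := run_relN' h1
  exact ⟨l, h3, t, h4, relN_inr' h2⟩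

/-- The program with a pushdown store with other names for the cells. -/
def relP (e : C → C') (P : PProg C W Z Q Γ) : PProg C' W Z Q Γ where
  start := P.start
  act q := match P.act q with
    | .ask c next => .ask (e c) next
    | .push g s => .push g s
    | .pop next => .pop next
    | .out z => .out z

theorem step_relP {e : C → C'} {P : PProg C W Z Q Γ} {I' : C' → W} (x : Q × List Γ) :
    (relP e P).step I' x = P.step (fun c => I' (e c)) x := by
  unfold PProg.step
  rcases h : P.act x.1 with ⟨c, next⟩ | ⟨g, s⟩ | next | z <;> simp only [relP, h]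

theorem conf_relP {e : C → C'} {P : PProg C W Z Q Γ} {I' : C' → W} (j : ℕ) :
    (relP e P).conf I' j = P.conf (fun c => I' (e c)) j := by
  induction j with
  | zero => rfl
  | succ j ih =>
    have h1 : (relP e P).conf I' (j + 1) = (relP e P).step I' ((relP e P).conf I' j) :=
      Function.iterate_succ_apply' _ _ _
    have h2 : P.conf (fun c => I' (e c)) (j + 1) =
        P.step (fun c => I' (e c)) (P.conf (fun c => I' (e c)) j) :=
      Function.iterate_succ_apply' _ _ _
    rw [h1, h2, step_relP, ih]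

theorem outputs_relP {e : C → C'} {P : PProg C W Z Q Γ} {I' : C' → W} {z : Z}
    (h : P.Outputs (fun c => I' (e c)) z) : (relP e P).Outputs I' z := by
  obtain ⟨j, hj⟩ := h
  refine ⟨j, ?_⟩
  rw [conf_relP]
  simp only [relP, hj]

theorem asks_relP {e : C → C'} {P : PProg C W Z Q Γ} {I' : C' → W} {x' : C'}
    (h : (relP e P).Asks I' x') : ∃ x, e x = x' ∧ P.Asks (fun c => I' (e c)) x := by
  obtain ⟨j, next, hj⟩ := h
  rw [conf_relP] at hj
  rcases hs : P.act (P.conf (fun c => I' (e c)) j).1 with ⟨c, next'⟩ | ⟨g, s⟩ | next' | z <;>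
    simp only [relP, hs] at hj
  · simp only [PAct.ask.injEq] at hj
    exact ⟨c, hj.1, j, next', hs⟩
  all_goals exact absurd hj (by simp)

end Pool.Agent.Helper73.CL
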