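import Pool.Agent.Helper73.CL.NonDetMain

/-!
# Nondeterministic branching programs of linear length

`NProg (Fin N) F F S` are the nondeterministic branching programs with `S` states for inputs `I : Fin N → F` (`N` symbols
in the finite field `F`; `N` bits for `F = ZMod 2`) and results in `F`: each state queries one symbol and allows, depending
on this symbol, a set of next states, or is final with a result. `P.Ends I l z`: on the input `I` some computation makes
the queries `l`, in this order, and reaches a final state with result `z`.

`PProg (Fin N) F F Q Γ` are the deterministic branching programs with a pushdown store, with states `Q` and stack symbols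
`Γ`: each state queries a symbol, pushes a stack symbol, pops one, or gives the result. `P.Outputs I z`: on the input `I`
the result is `z`; `P.Asks I x`: on the input `I` the symbol `x` is queried.

For every `L` there are `e > 0` and, for infinitely many `N`, a function `f` of `N` symbols which has a deterministic
pushdown program with `N ^ 3` states, but no nondeterministic branching program with `2 ^ (N ^ e)` states and length `L N`,
even if the program has to give a result on a part `1 / N ^ e` of the inputs only. `f` takes every value nearly equally
often.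
-/

namespace Pool.Agent.Results.MP_4e849b_lc.NondeterministicLength

open Pool.Agent.Helper19.NF (PProg)
open Pool.Agent.Helper74.NW (NProg)

theorem result (F : Type) [Field F] [Fintype F] (L : ℕ) : ∃ e : ℝ, 0 < e ∧ ∀ N₀ : ℕ, ∃ N ≥ N₀,
    ∃ f : (Fin N → F) → F,
      -- (1) nondeterministic programs which are never wrong
      (∀ (S : ℕ) (P : NProg (Fin N) F F S), (S : ℝ) ≤ 2 ^ ((N : ℝ) ^ e) →
        (∀ I l z, P.Ends I l z → z = f I) →
        (Nat.card {I : Fin N → F // ∃ l z, P.Ends I l z ∧ l.length ≤ L * N} : ℝ) ≤
          1 / (N : ℝ) ^ e * Nat.card (Fin N → F)) ∧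
      -- (2) every value is taken nearly equally often
      (∀ y, (1 / (Nat.card F : ℝ) - 1 / (N : ℝ) ^ e) * Nat.card (Fin N → F) ≤ Nat.card {I // f I = y}) ∧
      -- (3) a deterministic pushdown program
      ∃ (Q Γ : Type) (_ : Finite Q) (_ : Finite Γ) (P : PProg (Fin N) F F Q Γ),
        Nat.card Q ≤ N ^ 3 ∧ Nat.card Γ ≤ N ∧
        ∀ I, P.Outputs I (f I) ∧ (Nat.card {x // P.Asks I x} : ℝ) ≤ (N : ℝ) ^ (1 - e) := by
  obtain ⟨e, he, H⟩ := Pool.Agent.Helper73.CL.nondet_length F L
  refine ⟨e, he, fun N₀ => ?_⟩
  obtain ⟨N, hN, f, h1, h2, h3⟩ := H N₀
  exact ⟨N, hN, f, h2, h1, h3⟩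

end Pool.Agent.Results.MP_4e849b_lc.NondeterministicLength
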