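import Pool.Agent.Helper27.RT.FinalM
import Pool.Agent.Helper73.CL.Relabel

/-!
# Nondeterministic programs of linear length
-/

namespace Pool.Agent.Helper73.CL

open Pool.Agent.Helper19.NF (PProg)
open Pool.Agent.Helper74.NW (NProg)
open Pool.Agent.Helper99.NQ (Word)
open Pool.Agent.Helper43.NK (out)

/-! ## Numbers -/

theorem two_mul_le (t : ℕ) (ht : 2 ≤ t) : 2 * t ≤ 2 ^ (t ^ 2) := by
  have h1 : t + 1 ≤ 2 ^ t := Nat.lt_two_pow_self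
  have h2 : t * 2 ≤ t ^ 2 := by nlinarith
  calc 2 * t ≤ (t + 1) ^ 2 := by nlinarith
    _ ≤ (2 ^ t) ^ 2 := Nat.pow_le_pow_left h1 2
    _ = 2 ^ (t * 2) := by rw [pow_mul]
    _ ≤ 2 ^ (t ^ 2) := Nat.pow_le_pow_right (by norm_num) h2

theorem size_le (lam n t : ℕ) (ht : 2 ≤ t) (hl : lam ≤ t) (hn : n + 3 ≤ t) :
    2 ^ t * (lam * t ^ n + 1) ≤ 2 ^ (t ^ 2) := by
  have h1 : t ≤ 2 ^ t := Nat.lt_two_pow_self.le
  have h2 : lam * t ^ n + 1 ≤ t ^ (n + 2) := by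
    have h3 : lam * t ^ n ≤ t ^ (n + 1) := by
      rw [pow_succ, mul_comm (t ^ n)]
      exact Nat.mul_le_mul_right _ hl
    have h4 : t ^ (n + 1) + 1 ≤ t ^ (n + 2) := by
      have h5 : 1 ≤ t ^ (n + 1) := Nat.one_le_pow _ _ (by omega)
      rw [pow_succ t (n + 1)]
      nlinarith
    omega
  calc 2 ^ t * (lam * t ^ n + 1) ≤ 2 ^ t * (2 ^ t) ^ (n + 2) :=
        Nat.mul_le_mul_left _ (h2.trans (Nat.pow_le_pow_left h1 _))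
    _ = 2 ^ (t * (n + 3)) := by rw [← pow_mul, ← pow_add]; congr 1; ring
    _ ≤ 2 ^ (t ^ 2) := Nat.pow_le_pow_right (by norm_num) (by nlinarith)

theorem err_le (C t : ℕ) (ht : 2 ≤ t) (hC : C ≤ t) :
    (C : ℝ) * (((t : ℝ) ^ 2 * (t : ℝ) ^ 2) ^ 2 / (t : ℝ) ^ 16 + 1 / (t : ℝ) ^ 8) + 1 / 2 ^ (t ^ 2) ≤
      1 / (t : ℝ) := by
  have ht0 : (0 : ℝ) < t := by exact_mod_cast (by omega : 0 < t)
  have ht2 : (2 : ℝ) ≤ t := by exact_mod_cast ht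
  have hC' : (C : ℝ) ≤ t := by exact_mod_cast hC
  have h1 : ((t : ℝ) ^ 2 * (t : ℝ) ^ 2) ^ 2 / (t : ℝ) ^ 16 = 1 / (t : ℝ) ^ 8 := by
    field_simp
  have h2 : (C : ℝ) * (1 / (t : ℝ) ^ 8 + 1 / (t : ℝ) ^ 8) ≤ 1 / (2 * t) := by
    have h3 : (C : ℝ) * (1 / (t : ℝ) ^ 8 + 1 / (t : ℝ) ^ 8) ≤ t * (1 / (t : ℝ) ^ 8 + 1 / (t : ℝ) ^ 8) :=
      mul_le_mul_of_nonneg_right hC' (by positivity)
    refine h3.trans ?_
    have h4 : (t : ℝ) * (1 / (t : ℝ) ^ 8 + 1 / (t : ℝ) ^ 8) = 2 / (t : ℝ) ^ 7 := by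
      field_simp
      ring
    rw [h4, div_le_div_iff₀ (by positivity) (by positivity)]
    have h5 : (4 : ℝ) ≤ (t : ℝ) ^ 6 := by
      calc (4 : ℝ) ≤ 2 ^ 6 := by norm_num
        _ ≤ (t : ℝ) ^ 6 := pow_le_pow_left₀ (by norm_num) ht2 6
    nlinarith
  have h6 : (1 : ℝ) / 2 ^ (t ^ 2) ≤ 1 / (2 * t) := by
    refine one_div_le_one_div_of_le (by positivity) ?_
    exact_mod_cast two_mul_le t ht
  rw [h1]
  have h7 : (1 : ℝ) / (2 * t) + 1 / (2 * t) = 1 / t := by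
    field_simp
    ring
  linarith

end Pool.Agent.Helper73.CL
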