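import Pool.Agent.Helper73.CL.NonDet

/-!
# Nondeterministic programs of linear length: the main statement
-/

namespace Pool.Agent.Helper73.CL

open Pool.Agent.Helper19.NF (PProg)
open Pool.Agent.Helper74.NW (NProg)
open Pool.Agent.Helper99.NQ (Word)
open Pool.Agent.Helper43.NK (out)

/-- The statement, for the function `f` of the symbols with names in `X` and a number `t`, `N = t ^ n`. -/
def Good (F X : Type) [Fintype F] (f : (X → F) → F) (t n lam : ℕ) : Prop :=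
  Nat.card X = t ^ n ∧
  (∀ y, (1 / (Nat.card F : ℝ) - 1 / t) * Nat.card (X → F) ≤ Nat.card {I // f I = y}) ∧
  (∀ (S : ℕ) (P : NProg X F F S), S ≤ 2 ^ t → (∀ I l z, P.Ends I l z → z = f I) →
    (Nat.card {I : X → F // ∃ l z, P.Ends I l z ∧ l.length ≤ lam * t ^ n} : ℝ) ≤
      1 / t * Nat.card (X → F)) ∧
  ∃ (Q Γ : Type) (_ : Finite Q) (_ : Finite Γ) (P : PProg X F F Q Γ),
    Nat.card Q ≤ (t ^ n) ^ 3 ∧ Nat.card Γ ≤ t ^ n ∧
    ∀ I, P.Outputs I (f I) ∧ (Nat.card {x // P.Asks I x} : ℝ) ≤ (t : ℝ) ^ n / t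

/-- Other names for the symbols. -/
theorem Good.congr {F X Y : Type} [Fintype F] [Finite X] {f : (X → F) → F} {t n lam : ℕ} (ε : X ≃ Y)
    (h : Good F X f t n lam) : Good F Y (fun I => f fun x => I (ε x)) t n lam := by
  obtain ⟨h0, h1, h2, Q, Γ, hQ, hΓ, P0, hQc, hΓc, hP⟩ := h
  have hY : Finite Y := Finite.of_equiv X ε
  have hcard : Nat.card (Y → F) = Nat.card (X → F) :=
    Nat.card_congr (Equiv.arrowCongr ε.symm (Equiv.refl F))
  refine ⟨by rw [← Nat.card_congr ε, h0], ?_, ?_, Q, Γ, hQ, hΓ, relP ε P0, hQc, hΓc, ?_⟩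
  · intro y
    rw [hcard]
    refine (h1 y).trans (le_of_eq ?_)
    congr 1
    refine Nat.card_congr ⟨fun I => ⟨fun b => I.1 (ε.symm b), ?_⟩, fun I => ⟨fun x => I.1 (ε x), I.2⟩, ?_, ?_⟩
    · have h3 : (fun x => I.1 (ε.symm (ε x))) = I.1 := by
        funext x
        rw [Equiv.symm_apply_apply]
      show f (fun x => I.1 (ε.symm (ε x))) = y
      rw [h3]
      exact I.2
    · intro I
      refine Subtype.ext (funext fun x => ?_)
      simp only [Equiv.symm_apply_apply]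
    · intro I
      refine Subtype.ext (funext fun x => ?_)
      simp only [Equiv.apply_symm_apply]
  · intro S P hS hP'
    have h3 := h2 S (relN ε.symm P) hS ?_
    · rw [hcard]
      refine le_trans ?_ h3
      have h4 : Nat.card {I : Y → F // ∃ l z, P.Ends I l z ∧ l.length ≤ lam * t ^ n} ≤
          Nat.card {I : X → F // ∃ l z, (relN ε.symm P).Ends I l z ∧ l.length ≤ lam * t ^ n} := by
        refine Nat.card_le_card_of_injective
          (fun I => ⟨fun x => I.1 (ε x), ?_⟩) ?_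
        · obtain ⟨I, l, z, h5, h6⟩ := I
          refine ⟨l.map ε.symm, z, ends_relN ?_, by rw [List.length_map]; exact h6⟩
          have h7 : (fun c => I (ε (ε.symm c))) = I := by
            funext c
            rw [Equiv.apply_symm_apply]
          rw [h7]
          exact h5
        · intro I J hIJ
          refine Subtype.ext (funext fun y => ?_)
          have h5 := congrFun (Subtype.ext_iff.mp hIJ) (ε.symm y)
          simpa only [Equiv.apply_symm_apply] using h5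
      exact_mod_cast h4
    · intro I l z hl
      obtain ⟨l', -, h4⟩ := ends_relN' hl
      have h5 := hP' _ _ _ h4
      have h6 : (fun x => I (ε.symm (ε x))) = I := by
        funext x
        rw [Equiv.symm_apply_apply]
      have h7 : z = f (fun x => I (ε.symm (ε x))) := h5
      rw [h7, h6]
  · intro I
    refine ⟨outputs_relP (hP _).1, ?_⟩
    refine le_trans ?_ (hP fun x => I (ε x)).2
    have h4 : Nat.card {x // (relP ε P0).Asks I x} ≤ Nat.card {x // P0.Asks (fun x => I (ε x)) x} := by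
      refine Nat.card_le_card_of_injective (fun x => ⟨ε.symm x.1, ?_⟩) ?_
      · obtain ⟨x, h5, h6⟩ := asks_relP x.2
        rw [← h5, Equiv.symm_apply_apply]
        exact h6
      · intro x y hxy
        exact Subtype.ext (ε.symm.injective (Subtype.ext_iff.mp hxy))
    exact_mod_cast h4

theorem exists_good (F : Type) [Field F] [Fintype F] (lam : ℕ) : ∃ n : ℕ, 1 ≤ n ∧ ∀ T : ℕ, ∃ t ≥ T,
    ∃ (X : Type) (_ : Finite X) (f : (X → F) → F), Good F X f t n lam := by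
  obtain ⟨c, hc⟩ := Pool.Agent.Helper27.RT.finalM F (1 / 4) (by norm_num)
  obtain ⟨C, D, M, m, _, -, -, hMm, hD, hM, H⟩ := hc (4 * lam)
  set d := D * m + 1 with hd
  refine ⟨16 * d, by omega, fun T => ?_⟩
  have hq : 2 ≤ Fintype.card F := Fintype.one_lt_card
  set q := Fintype.card F with hqdef
  set i := T + C + lam + 16 * d + 3 with hi
  set t := q ^ i with ht
  have hit : i ≤ t := (Nat.lt_pow_self hq).le
  have ht2 : 2 ≤ t := by omega
  have htC : C ≤ t := by omega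
  have htl : lam ≤ t := by omega
  have htd : 16 * d + 3 ≤ t := by omega
  have hcardB : Nat.card (Fin (16 * i) → F) = t ^ 16 := by
    rw [Nat.card_eq_fintype_card, Fintype.card_fun, Fintype.card_fin, ← hqdef, ht, ← pow_mul, mul_comm]
  have ha : 1 ≤ t ^ 2 := Nat.one_le_pow _ _ (by omega)
  obtain ⟨G, hG, H1⟩ := H (t ^ 2) ha
  have hg : ∃ g, g ∈ G := by
    by_contra hne
    push Not at hne
    have h1 : Nat.card {g // g ∉ G} = Nat.card (Fin D → Equiv.Perm (Fin (M * t ^ 2))) :=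
      Nat.card_congr (Equiv.subtypeUnivEquiv hne)
    rw [h1] at hG
    have h2 : 0 < Nat.card (Fin D → Equiv.Perm (Fin (M * t ^ 2))) := Nat.card_pos
    have h3 : 2 ≤ 2 ^ (M * t ^ 2) := by
      calc 2 = 2 ^ 1 := rfl
        _ ≤ 2 ^ (M * t ^ 2) := Nat.pow_le_pow_right (by norm_num) (Nat.mul_pos (by omega) ha)
    nlinarith
  obtain ⟨g, hgG⟩ := hg
  have hx0 : Nonempty (Fin (M * t ^ 2) × Fin m ↪ (Fin (16 * i) → F)) := by
    refine Function.Embedding.nonempty_of_card_le ?_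
    rw [Fintype.card_prod, Fintype.card_fin, Fintype.card_fin, ← Nat.card_eq_fintype_card, hcardB]
    calc M * t ^ 2 * m = M * m * t ^ 2 := by ring
      _ ≤ t * t ^ 2 := Nat.mul_le_mul_right _ (hMm.trans htC)
      _ = t ^ 3 := by ring
      _ ≤ t ^ 16 := Nat.pow_le_pow_right (by omega) (by norm_num)
  obtain ⟨x0⟩ := hx0
  set N := Nat.card ((Fin (16 * i) → F) × Word D m (Fin (16 * i) → F)) with hN
  obtain ⟨hNk, hbal, hNP, -, hPP, -⟩ := H1 g hgG (Fin (16 * i) → F) x0 x0.injective (t ^ 2) (t ^ 16) N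
    (Nat.card F : ℝ) _ _ ha le_rfl hcardB.symm
    (by
      calc C * (t ^ 2 * t ^ 2) ^ 2 ≤ t * (t ^ 2 * t ^ 2) ^ 2 := Nat.mul_le_mul_right _ htC
        _ = t ^ 9 := by ring
        _ ≤ t ^ 16 := Nat.pow_le_pow_right (by omega) (by norm_num)) rfl rfl rfl rfl
  have hNt : N = t ^ (16 * d) := by rw [hNk, ← pow_mul]
  have ht0 : (0 : ℝ) < t := by exact_mod_cast (by omega : 0 < t)
  have hsqrt : √((t ^ 16 : ℕ) : ℝ) = (t : ℝ) ^ 8 := by
    push_cast
    rw [show (t : ℝ) ^ 16 = ((t : ℝ) ^ 8) ^ 2 by ring, Real.sqrt_sq (by positivity)]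
  have hE : (C : ℝ) * ((((t ^ 2 : ℕ) : ℝ) * ((t ^ 2 : ℕ) : ℝ)) ^ 2 / ((t ^ 16 : ℕ) : ℝ) + 1 / √((t ^ 16 : ℕ) : ℝ)) +
      1 / 2 ^ (t ^ 2) ≤ 1 / t := by
    rw [hsqrt]
    push_cast
    exact err_le C t ht2 htC
  have hpos : (0 : ℝ) ≤ Nat.card ((Fin (16 * i) → F) × Word D m (Fin (16 * i) → F) → F) := by positivity
  refine ⟨t, by omega, _, inferInstance, out g x0 (t ^ 2 + 1), by rw [← hN, hNt], ?_, ?_, ?_⟩
  · intro y
    refine le_trans (mul_le_mul_of_nonneg_right ?_ hpos) (hbal y)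
    linarith
  · intro S P hS hP
    have h1 := (hNP S P hP).2 (lam * t ^ (16 * d)) ?_ ?_ ?_
    · exact h1.trans (mul_le_mul_of_nonneg_right hE hpos)
    · have hq2 : (2 : ℝ) ≤ (Nat.card F : ℝ) := by
        rw [Nat.card_eq_fintype_card]
        exact_mod_cast hq
      have h2 : (1 : ℝ) / (Nat.card F : ℝ) ≤ 1 / 2 := one_div_le_one_div_of_le (by norm_num) hq2
      have h3 : (0 : ℝ) ≤ (N : ℝ) := Nat.cast_nonneg _
      have h4 : ((lam * t ^ (16 * d) : ℕ) : ℝ) = lam * N := by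
        rw [hNt]
        push_cast
        ring
      rw [h4]
      have h5 : (lam : ℝ) ≤ (1 - 1 / (Nat.card F : ℝ) - 1 / 4) * (((4 * lam : ℕ) : ℝ) + 1) := by
        push_cast
        have h6 : (0 : ℝ) ≤ lam := Nat.cast_nonneg _
        nlinarith
      exact mul_le_mul_of_nonneg_right h5 h3
    · have h2 := size_le lam (16 * d) t ht2 htl htd
      calc lam * t ^ (16 * d) ≤ 1 * (lam * t ^ (16 * d) + 1) := by omega
        _ ≤ 2 ^ t * (lam * t ^ (16 * d) + 1) := Nat.mul_le_mul_right _ Nat.one_le_two_pow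
        _ ≤ 2 ^ (t ^ 2) := h2
    · refine le_trans (Nat.mul_le_mul_right _ hS) ?_
      exact size_le lam (16 * d) t ht2 htl htd
  · obtain ⟨Q, Γ, hQ, hΓ, P, h1, h2, h3⟩ := hPP
    refine ⟨Q, Γ, hQ, hΓ, P, by rw [← hNt]; exact h1, by rw [← hNt]; exact h2, fun I => ⟨(h3 I).1, ?_⟩⟩
    refine (h3 I).2.trans ?_
    rw [hsqrt, hNt]
    push_cast
    refine div_le_div_of_nonneg_left (by positivity) ht0 ?_
    have h4 : (1 : ℝ) ≤ t := by exact_mod_cast (by omega : 1 ≤ t)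
    exact le_self_pow₀ h4 (by norm_num)

/-- **Nondeterministic programs of linear length.** -/
theorem nondet_length (F : Type) [Field F] [Fintype F] (lam : ℕ) : ∃ e : ℝ, 0 < e ∧ ∀ N₀ : ℕ,
    ∃ N ≥ N₀, ∃ f : (Fin N → F) → F,
      (∀ y, (1 / (Nat.card F : ℝ) - 1 / (N : ℝ) ^ e) * Nat.card (Fin N → F) ≤ Nat.card {I // f I = y}) ∧
      (∀ (S : ℕ) (P : NProg (Fin N) F F S), (S : ℝ) ≤ 2 ^ ((N : ℝ) ^ e) →
        (∀ I l z, P.Ends I l z → z = f I) →
        (Nat.card {I : Fin N → F // ∃ l z, P.Ends I l z ∧ l.length ≤ lam * N} : ℝ) ≤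
          1 / (N : ℝ) ^ e * Nat.card (Fin N → F)) ∧
      ∃ (Q Γ : Type) (_ : Finite Q) (_ : Finite Γ) (P : PProg (Fin N) F F Q Γ),
        Nat.card Q ≤ N ^ 3 ∧ Nat.card Γ ≤ N ∧
        ∀ I, P.Outputs I (f I) ∧ (Nat.card {x // P.Asks I x} : ℝ) ≤ (N : ℝ) ^ (1 - e) := by
  obtain ⟨n, hn, H⟩ := exists_good F lam
  refine ⟨(n : ℝ)⁻¹, inv_pos.mpr (by exact_mod_cast hn), fun N₀ => ?_⟩
  obtain ⟨t, ht, X, hX, f, hf⟩ := H (N₀ + 1)
  have hcard := hf.1
  have hX' := Fintype.ofFinite X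
  have ε : X ≃ Fin (t ^ n) := Fintype.equivFinOfCardEq (by rw [← Nat.card_eq_fintype_card, hcard])
  obtain ⟨-, h1, h2, h3⟩ := hf.congr ε
  have ht0 : (0 : ℝ) < t := by exact_mod_cast (by omega : 0 < t)
  have hN : (((t ^ n : ℕ) : ℝ)) ^ ((n : ℝ)⁻¹) = t := by
    push_cast
    exact Real.pow_rpow_inv_natCast ht0.le (by omega)
  refine ⟨t ^ n, ?_, fun I => f fun x => I (ε x), ?_, ?_⟩
  · have h4 : t ^ 1 ≤ t ^ n := Nat.pow_le_pow_right (by omega) hn
    rw [pow_one] at h4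
    omega
  · rw [hN]
    exact h1
  · rw [hN]
    refine ⟨fun S P hS hP => h2 S P ?_ hP, ?_⟩
    · rw [Real.rpow_natCast] at hS
      exact_mod_cast hS
    · obtain ⟨Q, Γ, hQ, hΓ, P, h4, h5, h6⟩ := h3
      refine ⟨Q, Γ, hQ, hΓ, P, h4, h5, fun I => ⟨(h6 I).1, (h6 I).2.trans (le_of_eq ?_)⟩⟩
      have h7 : (0 : ℝ) < ((t ^ n : ℕ) : ℝ) := by
        push_cast
        positivity
      rw [Real.rpow_sub h7, Real.rpow_one, hN]
      push_cast
      rfl

end Pool.Agent.Helper73.CL
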